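import Pool.Agent.H826Z.Iid.Spec

/-! Lower bounds on thin triangles. -/

set_option autoImplicit false

namespace Pool.Agent.H49Z.Iid

open Pool.Agent.Helper579.Iid Pool.Agent.H826Z.Iid MeasureTheory Set Filter
open scoped ENNReal Topology

abbrev P := Fin 2 → ℝ

lemma pderiv_smooth {φ : P → ℝ} (h : ContDiff ℝ (⊤ : ℕ∞) φ) (i : Fin 2) :
    ContDiff ℝ (⊤ : ℕ∞) (pderiv i φ) := by
  unfold pderiv
  have h1 : ContDiff ℝ (⊤ : ℕ∞) (fderiv ℝ φ) := h.fderiv_right (m := (⊤ : ℕ∞)) (by rfl)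
  exact h1.clm_apply contDiff_const

lemma pderiv_tsupport (φ : P → ℝ) (i : Fin 2) : tsupport (pderiv i φ) ⊆ tsupport φ := by
  refine subset_trans ?_ (tsupport_fderiv_subset ℝ (f := φ))
  apply closure_mono
  intro x hx
  rw [Function.mem_support] at hx ⊢
  intro h
  apply hx
  unfold pderiv
  rw [h]; rfl

lemma pderiv_compact {φ : P → ℝ} (h : HasCompactSupport φ) (i : Fin 2) :
    HasCompactSupport (pderiv i φ) :=
  IsCompact.of_isClosed_subset h (isClosed_tsupport _) (pderiv_tsupport φ i)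

lemma ibp {D : Set P} {f φ : P → ℝ} (hf : ContDiff ℝ (⊤ : ℕ∞) f) (i : Fin 2)
    (h1 : ContDiff ℝ (⊤ : ℕ∞) φ) (h2 : HasCompactSupport φ) (h3 : tsupport φ ⊆ D) :
    ∫ x in D, f x * pderiv i φ x = -∫ x in D, pderiv i f x * φ x := by
  have hz : ∀ x, x ∉ D → φ x = 0 := fun x hx =>
    image_eq_zero_of_notMem_tsupport fun h => hx (h3 h)
  have hz' : ∀ x, x ∉ D → pderiv i φ x = 0 := fun x hx =>
    image_eq_zero_of_notMem_tsupport fun h => hx (h3 (pderiv_tsupport φ i h))
  rw [setIntegral_eq_integral_of_forall_compl_eq_zero (fun x hx => by rw [hz' x hx, mul_zero]),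
    setIntegral_eq_integral_of_forall_compl_eq_zero (fun x hx => by rw [hz x hx, mul_zero])]
  have c1 := (pderiv_smooth hf i).continuous
  have c2 := (pderiv_smooth h1 i).continuous
  refine integral_mul_fderiv_eq_neg_fderiv_mul_of_integrable (v := Pi.single i 1) ?_ ?_ ?_ ?_ ?_
  · exact (c1.mul h1.continuous).integrable_of_hasCompactSupport h2.mul_left
  · exact (hf.continuous.mul c2).integrable_of_hasCompactSupport (pderiv_compact h2 i).mul_left
  · exact (hf.continuous.mul h1.continuous).integrable_of_hasCompactSupport h2.mul_left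
  · exact fun x _ => (hf.differentiable (by simp)) x
  · exact fun x _ => (h1.differentiable (by simp)) x

/-- a function of the first coordinate -/
def F (u : ℝ → ℝ) : P → ℝ := fun x => u (x 0)

lemma F_smooth {u : ℝ → ℝ} (h : ContDiff ℝ (⊤ : ℕ∞) u) : ContDiff ℝ (⊤ : ℕ∞) (F u) :=
  h.comp (contDiff_apply ℝ ℝ 0)

lemma F_fderiv {u u' : ℝ → ℝ} (h : ∀ t, HasDerivAt u (u' t) t) (x v : P) :
    fderiv ℝ (F u) x v = u' (x 0) * v 0 := by
  have h1 : HasFDerivAt (fun y : P => y 0) (ContinuousLinearMap.proj (R := ℝ)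
      (φ := fun _ : Fin 2 => ℝ) 0) x := hasFDerivAt_apply 0 x
  have h2 := (h (x 0)).comp_hasFDerivAt x h1
  have h3 : fderiv ℝ (F u) x = _ := h2.fderiv
  rw [h3]
  simp

lemma pderiv_F0 {u u' : ℝ → ℝ} (h : ∀ t, HasDerivAt u (u' t) t) : pderiv 0 (F u) = F u' := by
  funext x
  unfold pderiv
  rw [F_fderiv h]
  simp [F]

lemma pderiv_F1 {u u' : ℝ → ℝ} (h : ∀ t, HasDerivAt u (u' t) t) :
    pderiv 1 (F u) = fun _ => 0 := by
  funext x
  unfold pderiv
  rw [F_fderiv h]
  simp

lemma exists_K : ∃ K : ℝ, 1 ≤ K ∧ (∀ x, |deriv Bf x| ≤ K) ∧ ∀ x, |deriv (deriv Bf) x| ≤ K := by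
  have hc : Continuous (deriv (deriv Bf)) := deriv_Bf_contDiff.continuous_deriv (by simp)
  obtain ⟨C, hC⟩ := hc.bounded_above_of_compact_support deriv_Bf_compact.deriv
  exact ⟨max C KB, one_le_KB.trans (le_max_right _ _),
    fun x => (abs_deriv_Bf x).trans (le_max_right _ _), fun x => (hC x).trans (le_max_left _ _)⟩

noncomputable def u0 (c r t : ℝ) : ℝ := c * (1 - Bf (t / r))
noncomputable def u1 (c r t : ℝ) : ℝ := -(c / r) * deriv Bf (t / r)
noncomputable def u2 (c r t : ℝ) : ℝ := -(c / r ^ 2) * deriv (deriv Bf) (t / r)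

lemma u0_smooth (c r : ℝ) : ContDiff ℝ (⊤ : ℕ∞) (u0 c r) :=
  contDiff_const.mul (contDiff_const.sub (Bf_contDiff.comp (contDiff_id.div_const r)))

lemma u1_smooth (c r : ℝ) : ContDiff ℝ (⊤ : ℕ∞) (u1 c r) :=
  contDiff_const.mul (deriv_Bf_contDiff.comp (contDiff_id.div_const r))

lemma u2_cont (c r : ℝ) : Continuous (u2 c r) :=
  continuous_const.mul ((deriv_Bf_contDiff.continuous_deriv (by simp)).comp
    (continuous_id.div_const r))

lemma u0_deriv (c r t : ℝ) : HasDerivAt (u0 c r) (u1 c r t) t := by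
  have h1 : HasDerivAt (fun y : ℝ => y / r) (1 / r) t := (hasDerivAt_id t).div_const r
  have h2 : HasDerivAt Bf (deriv Bf (t / r)) (t / r) :=
    (Bf_contDiff.differentiable (by simp) _).hasDerivAt
  have h3 := ((h2.comp t h1).const_sub 1).const_mul c
  refine HasDerivAt.congr_deriv h3 ?_
  unfold u1
  ring

lemma u1_deriv (c r t : ℝ) : HasDerivAt (u1 c r) (u2 c r t) t := by
  have h1 : HasDerivAt (fun y : ℝ => y / r) (1 / r) t := (hasDerivAt_id t).div_const r
  have h2 : HasDerivAt (deriv Bf) (deriv (deriv Bf) (t / r)) (t / r) :=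
    (deriv_Bf_contDiff.differentiable (by simp) _).hasDerivAt
  have h3 := (h2.comp t h1).const_mul (-(c / r))
  refine HasDerivAt.congr_deriv h3 ?_
  unfold u2
  ring

lemma one_le_div' {r t : ℝ} (hr : 0 < r) (ht : r ≤ t) : 3 / 4 < t / r := by
  rw [lt_div_iff₀ hr]; linarith

lemma u0_zero (c : ℝ) {r t : ℝ} (hr : 0 < r) (ht : r ≤ t) : u0 c r t = 0 := by
  unfold u0; rw [Bf_one (one_le_div' hr ht).le]; ring

lemma u1_zero (c : ℝ) {r t : ℝ} (hr : 0 < r) (ht : r ≤ t) : u1 c r t = 0 := by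
  unfold u1; rw [deriv_Bf_zero (Or.inr (one_le_div' hr ht))]; ring

lemma u2_zero (c : ℝ) {r t : ℝ} (hr : 0 < r) (ht : r ≤ t) : u2 c r t = 0 := by
  unfold u2
  have : deriv Bf =ᶠ[nhds (t / r)] fun _ => 0 := by
    filter_upwards [Ioi_mem_nhds (one_le_div' hr ht)] with y hy using deriv_Bf_zero (Or.inr hy)
  rw [this.deriv_eq]; simp

lemma u0_abs {c : ℝ} (hc : 0 ≤ c) (r t : ℝ) : |u0 c r t| ≤ c := by
  unfold u0
  have h1 := Bf_nonneg (t / r)
  have h2 := Bf_le_one (t / r)
  rw [abs_of_nonneg (mul_nonneg hc (by linarith))]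
  nlinarith

lemma measurableSet_E (r : ℝ) : MeasurableSet {x : P | x 0 < r} :=
  measurableSet_lt (measurable_pi_apply 0) measurable_const

lemma vol_E {L r : ℝ} (hL : 1 ≤ L) (hr : 0 < r) :
    (volume.restrict (Tri L)) {x : P | x 0 < r} ≤ ENNReal.ofReal (2 * r ^ 2 / L ^ 2) := by
  rw [Measure.restrict_apply (measurableSet_E r)]
  have hL2 : 0 < L ^ 2 := by positivity
  have hsub : {x : P | x 0 < r} ∩ Tri L ⊆
      Set.univ.pi fun i => Set.Ioo ((![0, 0] : P) i) ((![r, 2 * r / L ^ 2] : P) i) := by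
    rintro x ⟨h0, h1, h2, h3⟩ i _
    simp only [mem_ofPred_eq] at h0
    have := mul_pos hL2 h1
    fin_cases i
    · simp only [Fin.zero_eta, Matrix.cons_val_zero, mem_Ioo]
      exact ⟨by linarith, h0⟩
    · simp only [Fin.mk_one, Matrix.cons_val_one, Matrix.cons_val_zero, mem_Ioo]
      refine ⟨h1, ?_⟩
      rw [lt_div_iff₀ hL2]; linarith
  refine (measure_mono hsub).trans ?_
  rw [Real.volume_pi_Ioo, Fin.prod_univ_two]
  simp only [Matrix.cons_val_zero, Matrix.cons_val_one, sub_zero]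
  rw [← ENNReal.ofReal_mul hr.le]
  apply le_of_eq; congr 1; ring

lemma norm_le {L r M : ℝ} (hL : 1 ≤ L) (hr : 0 < r) (hM : 0 ≤ M) {u : ℝ → ℝ}
    (h1 : ∀ t, |u t| ≤ M) (h2 : ∀ t, r ≤ t → u t = 0) (p : ℝ≥0∞) :
    eLpNorm (F u) p (volume.restrict (Tri L)) ≤
      ENNReal.ofReal M * ENNReal.ofReal (2 * r ^ 2 / L ^ 2) ^ (1 / p.toReal) := by
  have h3 : eLpNorm (F u) p (volume.restrict (Tri L)) ≤
      eLpNorm ({x : P | x 0 < r}.indicator fun _ => M) p (volume.restrict (Tri L)) := by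
    apply eLpNorm_mono
    intro x
    by_cases hx : x ∈ {x : P | x 0 < r}
    · rw [indicator_of_mem hx, Real.norm_eq_abs, Real.norm_eq_abs, abs_of_nonneg hM]
      exact h1 _
    · rw [indicator_of_notMem hx]
      simp only [mem_ofPred_eq, not_lt] at hx
      simp [F, h2 _ hx]
  refine h3.trans ((eLpNorm_indicator_const_le _ _).trans ?_)
  rw [Real.enorm_eq_ofReal hM]
  gcongr
  exact vol_E hL hr

lemma sup_ge {L r c : ℝ} (hL : 1 ≤ L) (hr : 0 < r) (hr1 : r ≤ 1) (hc : 0 ≤ c)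
    (ho : IsOpen (Tri L)) :
    ENNReal.ofReal c ≤ eLpNorm (F (u0 c r)) ∞ (volume.restrict (Tri L)) := by
  rw [eLpNorm_exponent_top]
  have h1 := ae_le_eLpNormEssSup (f := F (u0 c r)) (μ := volume.restrict (Tri L))
  have hL2 : 0 < L ^ 2 := by positivity
  have ho' : IsOpen ({x : P | x 0 < r / 4} ∩ Tri L) :=
    (isOpen_lt (continuous_apply 0) continuous_const).inter ho
  have hne : ({x : P | x 0 < r / 4} ∩ Tri L).Nonempty := by
    refine ⟨![r / 8, r / 8 / L ^ 2], ?_, ?_, ?_, ?_⟩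
    · simp only [mem_ofPred_eq, Matrix.cons_val_zero]; linarith
    · simp only [Matrix.cons_val_one, Matrix.cons_val_zero]; positivity
    · simp only [Matrix.cons_val_zero]; linarith
    · simp only [Matrix.cons_val_one, Matrix.cons_val_zero]
      rw [mul_div_cancel₀ _ hL2.ne']; linarith
  have hpos : (volume.restrict (Tri L)) {x : P | x 0 < r / 4} ≠ 0 := by
    rw [Measure.restrict_apply (measurableSet_E _)]
    exact (ho'.measure_pos volume hne).ne'
  obtain ⟨x, hx, hx'⟩ := Measure.exists_mem_of_measure_ne_zero_of_ae hpos (ae_restrict_of_ae h1)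
  refine le_trans (le_of_eq ?_) hx'
  simp only [mem_ofPred_eq] at hx
  have : F (u0 c r) x = c := by
    unfold F u0
    rw [Bf_zero (by rw [div_le_iff₀ hr]; linarith)]; ring
  rw [this, Real.enorm_eq_ofReal hc]

lemma lower {L r c : ℝ} (hL : 1 ≤ L) (hr : 0 < r) (hr1 : r ≤ 1) (hc : 0 ≤ c)
    (ho : IsOpen (Tri L)) (hv : volume (Tri L) = 1) {s : ℕ} {p : ℝ≥0∞}
    (hf : F (u0 c r) ∈ sobBall (Tri L) s p) (n : ℕ) (hn : n * (2 * r ^ 2 / L ^ 2) ≤ 1 / 2)
    (ha : 2 * r ^ 2 / L ^ 2 ≤ 1) :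
    ENNReal.ofReal (c / 2) ≤ minErr (Tri L) s p ∞ .ran n := by
  have hp : IsProbabilityMeasure (unif (Tri L)) := unif_isProb (by rw [hv]; simp) (by rw [hv]; simp)
  set a := 2 * r ^ 2 / L ^ 2 with ha'
  have ha0 : 0 ≤ a := by positivity
  have hS : ENNReal.ofReal (1 - a) ≤ unif (Tri L) {x : P | x 0 < r}ᶜ := by
    rw [prob_compl_eq_one_sub (measurableSet_E r), ENNReal.ofReal_sub _ ha0, ENNReal.ofReal_one]
    apply tsub_le_tsub_left
    unfold unif
    rw [hv, inv_one, one_smul]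
    exact vol_E hL hr
  refine le_iInf fun A => le_trans ?_ (fooling ho.measurableSet le_top hf
    (measurableSet_E r).compl (fun x hx => u0_zero c hr (not_lt.1 hx)) inferInstance A)
  have h2 : (1 : ℝ) / 2 ≤ (1 - a) ^ n := by
    have h3 := one_add_mul_le_pow (a := -a) (by linarith) n
    rw [← sub_eq_add_neg] at h3
    linarith
  calc ENNReal.ofReal (c / 2) = ENNReal.ofReal c * ENNReal.ofReal (1 / 2) := by
        rw [← ENNReal.ofReal_mul hc]; congr 1; ring
    _ ≤ ENNReal.ofReal c * ENNReal.ofReal (1 - a) ^ n := by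
        gcongr
        rw [← ENNReal.ofReal_pow (by linarith)]
        exact ENNReal.ofReal_le_ofReal h2
    _ ≤ _ := by
        gcongr
        exact sup_ge hL hr hr1 hc ho

lemma multi_two_two :
    multi 2 2 = {![0, 0], ![1, 0], ![0, 1], ![2, 0], ![1, 1], ![0, 2]} := by decide

lemma mderiv_20 (φ : P → ℝ) : mderiv ![2, 0] φ = pderiv 0 (pderiv 0 φ) := by
  unfold mderiv
  simp [List.finRange_succ]

lemma mderiv_11 (φ : P → ℝ) : mderiv ![1, 1] φ = pderiv 0 (pderiv 1 φ) := by
  unfold mderiv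
  simp [List.finRange_succ]

lemma mderiv_02 (φ : P → ℝ) : mderiv ![0, 2] φ = pderiv 1 (pderiv 1 φ) := by
  unfold mderiv
  simp [List.finRange_succ]

lemma mem_two {D : Set P} {c r : ℝ}
    (hn : eLpNorm (F (u0 c r)) 1 (volume.restrict D) + eLpNorm (F (u1 c r)) 1 (volume.restrict D)
      + eLpNorm (F (u2 c r)) 1 (volume.restrict D) ≤ 1) : F (u0 c r) ∈ sobBall D 2 1 := by
  have s0 := F_smooth (u0_smooth c r)
  have s1 := F_smooth (u1_smooth c r)
  have c2 : Continuous (F (u2 c r)) := (u2_cont c r).comp (continuous_apply 0)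
  have l0 : LocallyIntegrableOn (F (u0 c r)) D :=
    s0.continuous.locallyIntegrable.locallyIntegrableOn D
  have l1 : LocallyIntegrableOn (F (u1 c r)) D :=
    s1.continuous.locallyIntegrable.locallyIntegrableOn D
  have l2 : LocallyIntegrableOn (F (u2 c r)) D := c2.locallyIntegrable.locallyIntegrableOn D
  have lz : LocallyIntegrableOn (fun _ : P => (0 : ℝ)) D :=
    continuous_const.locallyIntegrable.locallyIntegrableOn D
  have d00 := pderiv_F0 (u0_deriv c r)
  have d01 := pderiv_F1 (u0_deriv c r)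
  have d10 := pderiv_F0 (u1_deriv c r)
  have d11 := pderiv_F1 (u1_deriv c r)
  refine ⟨s0.continuous.continuousOn, fun α => if α 1 = 0 then
    (if α 0 = 0 then F (u0 c r) else if α 0 = 1 then F (u1 c r) else F (u2 c r))
    else fun _ => 0, by simp, ?_, ?_⟩
  · intro α hα
    rw [multi_two_two] at hα
    simp only [Finset.mem_insert, Finset.mem_singleton] at hα
    rcases hα with rfl | rfl | rfl | rfl | rfl | rfl
    · refine ⟨l0, by simpa using l0, fun φ _ _ _ => ?_⟩
      rw [mderiv_00]; simp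
    · refine ⟨l0, by simpa using l1, fun φ h1 h2 h3 => ?_⟩
      rw [mderiv_10, ibp s0 0 h1 h2 h3, d00]; simp
    · refine ⟨l0, by simpa using lz, fun φ h1 h2 h3 => ?_⟩
      rw [mderiv_01, ibp s0 1 h1 h2 h3, d01]; simp
    · refine ⟨l0, by simpa using l2, fun φ h1 h2 h3 => ?_⟩
      rw [mderiv_20, ibp s0 0 (pderiv_smooth h1 0) (pderiv_compact h2 0)
        ((pderiv_tsupport φ 0).trans h3), d00, ibp s1 0 h1 h2 h3, d10]; simp
    · refine ⟨l0, by simpa using lz, fun φ h1 h2 h3 => ?_⟩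
      rw [mderiv_11, ibp s0 0 (pderiv_smooth h1 1) (pderiv_compact h2 1)
        ((pderiv_tsupport φ 1).trans h3), d00, ibp s1 1 h1 h2 h3, d11]; simp
    · refine ⟨l0, by simpa using lz, fun φ h1 h2 h3 => ?_⟩
      rw [mderiv_02, ibp s0 1 (pderiv_smooth h1 1) (pderiv_compact h2 1)
        ((pderiv_tsupport φ 1).trans h3), d01]; simp
  · unfold sobNorm
    rw [if_neg (by norm_num), multi_two_two, Finset.sum_insert (by decide),
      Finset.sum_insert (by decide), Finset.sum_insert (by decide), Finset.sum_insert (by decide),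
      Finset.sum_insert (by decide), Finset.sum_singleton]
    have z : eLpNorm (fun _ : P => (0 : ℝ)) 1 (volume.restrict D) = 0 := eLpNorm_zero'
    simpa [z, add_assoc] using hn

theorem tri2 (h : S_TRI) : S_TRI2 := by
  intro C
  obtain ⟨K, hK, hK1, hK2⟩ := exists_K
  set L : ℝ := 1 + 12 * K * |C| with hLd
  have hC := abs_nonneg C
  have hL : 1 ≤ L := by rw [hLd]; nlinarith
  obtain ⟨hadm, -, hv⟩ := h.2 L hL
  refine ⟨L, hL, fun n => ?_⟩
  set r : ℝ := 1 / (2 * (n + 1)) with hrd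
  have hn0 : (0 : ℝ) ≤ n := Nat.cast_nonneg n
  have hr : 0 < r := by positivity
  have hrn : r * (2 * (n + 1)) = 1 := by rw [hrd]; field_simp
  have hr2 : r ≤ 1 / 2 := by nlinarith
  have hL2 : 1 ≤ L ^ 2 := by nlinarith
  have ha : 2 * r ^ 2 / L ^ 2 ≤ r := by
    rw [div_le_iff₀ (by positivity)]; nlinarith
  set c : ℝ := L ^ 2 / (6 * K) with hcd
  have hc : 0 ≤ c := by positivity
  have hmem : F (u0 c r) ∈ sobBall (Tri L) 2 1 := by
    apply mem_two
    have hM : 0 ≤ c * K / r ^ 2 := by positivity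
    have hr21 : r ^ 2 ≤ r := by nlinarith
    have b0 := norm_le (M := c * K / r ^ 2) hL hr hM (u := u0 c r) (fun t => (u0_abs hc r t).trans
      (by rw [le_div_iff₀ (by positivity)]; apply mul_le_mul_of_nonneg_left _ hc; linarith))
      (fun t ht => u0_zero c hr ht) 1
    have b1 := norm_le (M := c * K / r ^ 2) hL hr hM (u := u1 c r) (fun t => by
      unfold u1
      rw [abs_mul, abs_neg, abs_of_nonneg (by positivity)]
      calc c / r * |deriv Bf (t / r)| ≤ c / r ^ 2 * K := by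
            gcongr
            exact hK1 _
        _ = _ := by ring) (fun t ht => u1_zero c hr ht) 1
    have b2 := norm_le (M := c * K / r ^ 2) hL hr hM (u := u2 c r) (fun t => by
      unfold u2
      rw [abs_mul, abs_neg, abs_of_nonneg (by positivity)]
      calc c / r ^ 2 * |deriv (deriv Bf) (t / r)| ≤ c / r ^ 2 * K := by
            gcongr
            exact hK2 _
        _ = _ := by ring) (fun t ht => u2_zero c hr ht) 1
    have e : ENNReal.ofReal (c * K / r ^ 2) *
        ENNReal.ofReal (2 * r ^ 2 / L ^ 2) ^ (1 / (1 : ℝ≥0∞).toReal) = ENNReal.ofReal (1 / 3) := by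
      simp only [ENNReal.toReal_one, div_one, ENNReal.rpow_one]
      rw [← ENNReal.ofReal_mul hM, hcd]
      congr 1
      field_simp
      norm_num
    rw [e] at b0 b1 b2
    refine (add_le_add (add_le_add b0 b1) b2).trans ?_
    rw [← ENNReal.ofReal_add (by norm_num) (by norm_num),
      ← ENNReal.ofReal_add (by norm_num) (by norm_num)]
    norm_num
  refine le_trans (ENNReal.ofReal_le_ofReal ?_) (lower hL hr (by linarith) hc hadm.isOpen hv hmem n
    ?_ (by linarith))
  · rw [hcd, div_div, le_div_iff₀ (by positivity)]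
    have := le_abs_self C
    have h1 : 12 * K * |C| ≤ L ^ 2 := by nlinarith
    nlinarith
  · have : (n : ℝ) * (2 * r ^ 2 / L ^ 2) ≤ n * r := by gcongr
    nlinarith

lemma rate_eq : rate 2 1 4 ∞ = 1 / 4 := by
  unfold rate
  simp only [ENNReal.toReal_inv, ENNReal.toReal_top, inv_zero, sub_zero]
  have h4 : (4 : ℝ≥0∞).toReal = 4 := by norm_num
  rw [h4]
  norm_num

theorem tri1 (h : S_TRI) : S_TRI1 := by
  intro C
  obtain ⟨K, hK, hK1, -⟩ := exists_K
  set L : ℝ := 1 + 4 * K * |C| with hLd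
  have hC := abs_nonneg C
  have hL : 1 ≤ L := by rw [hLd]; nlinarith
  obtain ⟨hadm, -, hv⟩ := h.2 L hL
  refine ⟨L, hL, ?_⟩
  filter_upwards [eventually_ge_atTop ⌈L ^ 2⌉₊] with n hn
  have hL2 : 1 ≤ L ^ 2 := by nlinarith
  have hn1 : L ^ 2 ≤ n := (Nat.le_ceil _).trans (by exact_mod_cast hn)
  have hn0 : (0 : ℝ) < n := by linarith
  set w : ℝ := (n : ℝ) ^ (1 / 4 : ℝ) with hwd
  have hw : 0 < w := by positivity
  have hw4 : w ^ 4 = n := by
    rw [hwd, ← Real.rpow_natCast, ← Real.rpow_mul hn0.le]; norm_num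
  set r : ℝ := L / (2 * w ^ 2) with hrd
  have hr : 0 < r := by positivity
  have hLw : L ≤ w ^ 2 := by
    apply le_of_pow_le_pow_left₀ (n := 2) (by norm_num) (by positivity)
    nlinarith
  have hr1 : r ≤ 1 := by rw [hrd, div_le_one (by positivity)]; nlinarith
  have ha : 2 * r ^ 2 / L ^ 2 = 1 / (2 * n) := by
    rw [hrd, ← hw4]; field_simp
  set c : ℝ := r * w / K with hcd
  have hc : 0 ≤ c := by positivity
  have s0 := F_smooth (u0_smooth c r)
  have s1 := F_smooth (u1_smooth c r)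
  have hmem : F (u0 c r) ∈ sobBall (Tri L) 1 4 := by
    refine mem_sobBall_one (g₀ := F (u1 c r)) (g₁ := fun _ => 0) hadm.isOpen.measurableSet
      ⟨s0.continuous.continuousOn, s1.continuous.locallyIntegrable.locallyIntegrableOn _,
        continuous_const.locallyIntegrable.locallyIntegrableOn _, ?_, ?_⟩ ?_
    · intro φ h1 h2 h3
      rw [ibp s0 0 h1 h2 h3, pderiv_F0 (u0_deriv c r)]
    · intro φ h1 h2 h3
      rw [ibp s0 1 h1 h2 h3, pderiv_F1 (u0_deriv c r)]
    have b0 := norm_le (M := w) hL hr hw.le (u := u0 c r) (fun t => (u0_abs hc r t).trans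
      (by rw [hcd, div_le_iff₀ (by positivity)]; nlinarith))
      (fun t ht => u0_zero c hr ht) 4
    have b1 := norm_le (M := w) hL hr hw.le (u := u1 c r) (fun t => by
      unfold u1
      rw [abs_mul, abs_neg, abs_of_nonneg (by positivity)]
      calc c / r * |deriv Bf (t / r)| ≤ c / r * K := by
            gcongr
            exact hK1 _
        _ = _ := by rw [hcd]; field_simp) (fun t ht => u1_zero c hr ht) 4
    have e : (ENNReal.ofReal w *
        ENNReal.ofReal (2 * r ^ 2 / L ^ 2) ^ (1 / (4 : ℝ≥0∞).toReal)) ^ 4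
          = ENNReal.ofReal (1 / 2) := by
      have h4 : (4 : ℝ≥0∞).toReal = 4 := by norm_num
      rw [mul_pow, h4, ← ENNReal.rpow_natCast (_ ^ _), ← ENNReal.rpow_mul,
        ← ENNReal.ofReal_pow hw.le, hw4, ha, show (1 : ℝ) / 4 * ((4 : ℕ) : ℝ) = 1 by norm_num,
        ENNReal.rpow_one, ← ENNReal.ofReal_mul hn0.le]
      congr 1
      field_simp
    have z : eLpNorm (fun _ : P => (0 : ℝ)) 4 (volume.restrict (Tri L)) = 0 := eLpNorm_zero'
    have b0' := pow_le_pow_left' b0 4
    have b1' := pow_le_pow_left' b1 4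
    rw [e] at b0' b1'
    rw [z, zero_pow (by norm_num), add_zero]
    refine (add_le_add b0' b1').trans ?_
    rw [← ENNReal.ofReal_add (by norm_num) (by norm_num)]
    norm_num
  have hlow := lower hL hr hr1 hc hadm.isOpen hv hmem n (by rw [ha]; apply le_of_eq; field_simp)
    (by rw [ha, div_le_one (by positivity)]; linarith)
  unfold scaled
  rw [rate_eq, ← hwd]
  calc ENNReal.ofReal C ≤ ENNReal.ofReal (c / 2 * w) := by
        apply ENNReal.ofReal_le_ofReal
        have e : c / 2 * w = L / (4 * K) := by rw [hcd, hrd]; field_simp; ring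
        rw [e, le_div_iff₀ (by positivity)]
        have := le_abs_self C
        nlinarith
    _ = ENNReal.ofReal (c / 2) * ENNReal.ofReal w := ENNReal.ofReal_mul (by positivity)
    _ ≤ _ := by gcongr

end Pool.Agent.H49Z.Iid
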